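import Pool.Agent.HPR.Defs

/-!
# The resultant of two ridge polynomials
-/

set_option autoImplicit false

open Polynomial LRP HPR

namespace HPR64

/-- The slice of `F` at `x_1 = t`. -/
noncomputable def psi (t : ℝ) : MvPolynomial (Fin 2) QB →ₐ[QB] ℂ[X] :=
  MvPolynomial.aeval (![X, C (t : ℂ)] : Fin 2 → ℂ[X])

theorem psi_eval (F : MvPolynomial (Fin 2) QB) (t : ℝ) (z : ℂ) :
    (psi t F).eval z = MvPolynomial.aeval (![z, (t : ℂ)] : Fin 2 → ℂ) F := by
  unfold psi
  induction F using MvPolynomial.induction_on with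
  | C c => simp [Polynomial.algebraMap_apply]
  | add p q hp hq => simp only [map_add, eval_add, hp, hq]
  | mul_X p i hp =>
    simp only [map_mul, eval_mul, hp, MvPolynomial.aeval_X]
    congr 1
    fin_cases i <;> simp

theorem evz_eq (F : MvPolynomial (Fin 2) QB) (z : ℂ) (x : Fin 1 → ℝ) :
    evz F z x = (psi (x 0) F).eval z := by
  rw [psi_eval]
  unfold evz
  congr 2
  funext i
  fin_cases i <;> rfl

/-- Evaluation of one variable polynomials. -/
noncomputable def e1 (t : ℝ) : MvPolynomial (Fin 1) QB →+* ℂ :=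
  (MvPolynomial.aeval (fun _ : Fin 1 => (t : ℂ)) : MvPolynomial (Fin 1) QB →ₐ[QB] ℂ).toRingHom

theorem ev_eq (c : MvPolynomial (Fin 1) QB) (x : Fin 1 → ℝ) : ev c x = e1 (x 0) c := by
  unfold ev e1
  have h : (fun k => (x k : ℂ)) = fun _ : Fin 1 => ((x 0 : ℝ) : ℂ) := by
    funext k
    rw [Subsingleton.elim k 0]
  rw [h]
  rfl

theorem fse_C (c : QB) : MvPolynomial.finSuccEquiv QB 1 (MvPolynomial.C c) =
    C (MvPolynomial.C c) :=
  (MvPolynomial.finSuccEquiv QB 1).commutes c

theorem fse_rename (G : MvPolynomial (Fin 1) QB) :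
    MvPolynomial.finSuccEquiv QB 1 (MvPolynomial.rename Fin.succ G) = C G := by
  induction G using MvPolynomial.induction_on with
  | C c => rw [MvPolynomial.rename_C, fse_C]
  | add p q hp hq => rw [map_add, map_add, hp, hq, C_add]
  | mul_X p i hp =>
    rw [map_mul, map_mul, hp, MvPolynomial.rename_X, MvPolynomial.finSuccEquiv_X_succ, C_mul]

theorem psi_fse (F : MvPolynomial (Fin 2) QB) (t : ℝ) :
    psi t F = (MvPolynomial.finSuccEquiv QB 1 F).map (e1 t) := by
  unfold psi e1
  induction F using MvPolynomial.induction_on with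
  | C c =>
    rw [fse_C, Polynomial.map_C, MvPolynomial.aeval_C, Polynomial.algebraMap_apply]
    simp
  | add p q hp hq => simp only [map_add, Polynomial.map_add, hp, hq]
  | mul_X p i hp =>
    simp only [map_mul, Polynomial.map_mul, hp, MvPolynomial.aeval_X]
    congr 1
    refine Fin.cases ?_ (fun j => ?_) i
    · simp [MvPolynomial.finSuccEquiv_X_zero]
    · rw [MvPolynomial.finSuccEquiv_X_succ]
      have : j = 0 := Subsingleton.elim _ _
      subst this
      simp

/-- `t` as one variable polynomial. -/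
noncomputable def jj : MvPolynomial (Fin 1) QB →+* MvPolynomial (Fin 2) QB :=
  (MvPolynomial.rename (fun _ : Fin 1 => (1 : Fin 2))).toRingHom

theorem aeval_eq_comp (f : MvPolynomial (Fin 2) QB) (W : (MvPolynomial (Fin 2) QB)[X]) :
    MvPolynomial.aeval (![W, C (MvPolynomial.X 1)] : Fin 2 → (MvPolynomial (Fin 2) QB)[X]) f =
      ((MvPolynomial.finSuccEquiv QB 1 f).map jj).comp W := by
  unfold jj
  induction f using MvPolynomial.induction_on with
  | C c =>
    rw [fse_C, Polynomial.map_C, MvPolynomial.aeval_C, Polynomial.algebraMap_apply, C_comp]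
    simp [MvPolynomial.algebraMap_eq]
  | add p q hp hq => simp only [map_add, Polynomial.map_add, add_comp, hp, hq]
  | mul_X p i hp =>
    simp only [map_mul, Polynomial.map_mul, mul_comp, hp, MvPolynomial.aeval_X]
    congr 1
    refine Fin.cases ?_ (fun j => ?_) i
    · simp [MvPolynomial.finSuccEquiv_X_zero]
    · rw [MvPolynomial.finSuccEquiv_X_succ]
      have : j = 0 := Subsingleton.elim _ _
      subst this
      simp

theorem map_aeval (f : MvPolynomial (Fin 2) QB) (W : (MvPolynomial (Fin 2) QB)[X]) (t : ℝ) :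
    (MvPolynomial.aeval (![W, C (MvPolynomial.X 1)] : Fin 2 → (MvPolynomial (Fin 2) QB)[X])
      f).map (psi t).toRingHom = ((psi t f).map C).comp (W.map (psi t).toRingHom) := by
  induction f using MvPolynomial.induction_on with
  | C c => simp [Polynomial.algebraMap_apply, MvPolynomial.algebraMap_eq, psi]
  | add p q hp hq => simp only [map_add, Polynomial.map_add, add_comp, hp, hq]
  | mul_X p i hp =>
    simp only [map_mul, Polynomial.map_mul, mul_comp, hp, MvPolynomial.aeval_X]
    congr 1
    fin_cases i <;> simp [psi]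

theorem natDegree_slice {F : MvPolynomial (Fin 2) QB} (hF : ∀ x : Fin 1 → ℝ, ev (lc F) x ≠ 0)
    (t : ℝ) : (psi t F).natDegree = (MvPolynomial.finSuccEquiv QB 1 F).natDegree ∧
      psi t F ≠ 0 := by
  have h1 := hF (fun _ => t)
  rw [ev_eq] at h1
  unfold lc at h1
  rw [psi_fse]
  refine ⟨natDegree_map_of_leadingCoeff_ne_zero _ h1, fun h0 => h1 ?_⟩
  rw [← coeff_natDegree, ← coeff_map, h0, coeff_zero]

theorem e1_ne (c : MvPolynomial (Fin 1) QB) (hc : ∀ t : ℝ, e1 t c = 0) : c = 0 := by
  have h : MvPolynomial.map (algebraMap QB ℂ) c = 0 := by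
    refine MvPolynomial.funext_set (fun _ : Fin 1 => Set.range ((↑) : ℝ → ℂ)) (fun _ => ?_)
      (fun x hx => ?_)
    · exact Set.infinite_range_of_injective Complex.ofReal_injective
    · obtain ⟨t, ht⟩ := hx 0 (Set.mem_univ _)
      have h2 := hc t
      unfold e1 at h2
      rw [map_zero, MvPolynomial.eval_map]
      have h3 : x = fun _ : Fin 1 => (t : ℂ) := by
        funext k
        rw [Subsingleton.elim k 0, ← ht]
      rw [h3]
      exact h2
  exact MvPolynomial.map_injective _ (algebraMap QB ℂ).injective (by rw [h, map_zero])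

theorem lc_ne {F : MvPolynomial (Fin 2) QB} (N : ℕ) (hN : ∀ t : ℝ, (psi t F).natDegree = N)
    (h0 : ∀ t : ℝ, psi t F ≠ 0) (x : Fin 1 → ℝ) : ev (lc F) x ≠ 0 := by
  set H := MvPolynomial.finSuccEquiv QB 1 F with hH
  have hpf : ∀ t : ℝ, psi t F = H.map (e1 t) := fun t => psi_fse F t
  have hNH : H.natDegree = N := by
    refine le_antisymm ?_ ?_
    · by_contra hlt
      push Not at hlt
      have h1 : H.coeff H.natDegree = 0 := by
        refine e1_ne _ fun t => ?_
        rw [← coeff_map, ← hpf]
        exact coeff_eq_zero_of_natDegree_lt (by rw [hN t]; exact hlt)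
      rw [coeff_natDegree, leadingCoeff_eq_zero] at h1
      apply h0 0
      rw [hpf, h1, Polynomial.map_zero]
    · rw [← hN 0, hpf]
      exact natDegree_map_le
  rw [ev_eq]
  unfold lc
  rw [← hH, ← coeff_natDegree, ← coeff_map, ← hpf, hNH, ← hN (x 0), coeff_natDegree]
  exact leadingCoeff_ne_zero.mpr (h0 _)

theorem prod_facts (s : Multiset ℂ) (G : ℂ[X]) (hG : G ≠ 0) (b : ℂ) :
    ((s.map (fun α => G.comp (X + C (b * α)))).prod).natDegree = s.card * G.natDegree ∧
    (s.map (fun α => G.comp (X + C (b * α)))).prod ≠ 0 ∧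
    ∀ y, ((s.map (fun α => G.comp (X + C (b * α)))).prod).eval y = 0 →
      ∃ α ∈ s, G.eval (y + b * α) = 0 := by
  induction s using Multiset.induction_on with
  | empty => simp
  | cons a s ih =>
    obtain ⟨h1, h2, h3⟩ := ih
    have h4 : G.comp (X + C (b * a)) ≠ 0 := by
      intro h
      apply hG
      rwa [comp_X_add_C_eq_zero_iff] at h
    rw [Multiset.map_cons, Multiset.prod_cons]
    refine ⟨?_, mul_ne_zero h4 h2, fun y hy => ?_⟩
    · rw [natDegree_mul h4 h2, h1, natDegree_comp, natDegree_X_add_C, Multiset.card_cons]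
      ring
    · rw [eval_mul, mul_eq_zero] at hy
      rcases hy with hy | hy
      · refine ⟨a, Multiset.mem_cons_self a s, ?_⟩
        simpa [eval_comp] using hy
      · obtain ⟨α, hα, h5⟩ := h3 y hy
        exact ⟨α, Multiset.mem_cons_of_mem hα, h5⟩

theorem res_slice (P G : ℂ[X]) (b : ℂ) (k : ℕ) (hk : G.natDegree ≤ k) :
    resultant (P.map C) ((G.map C).comp (C (C b) * X + C X)) P.natDegree k =
      C (P.leadingCoeff ^ k) * (P.roots.map (fun α => G.comp (X + C (b * α)))).prod := by
  have hs : P.Splits := IsAlgClosed.splits P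
  have hs' : (P.map (C : ℂ →+* ℂ[X])).Splits := hs.map _
  have hinj : Function.Injective (C : ℂ →+* ℂ[X]) := C_injective
  have h1 : ((G.map C).comp (C (C b) * X + C X) : ℂ[X][X]).natDegree ≤ k := by
    refine natDegree_comp_le.trans ?_
    calc (G.map C).natDegree * (C (C b) * X + C X : ℂ[X][X]).natDegree
        ≤ G.natDegree * 1 := by
          refine Nat.mul_le_mul natDegree_map_le ?_
          exact (natDegree_add_le _ _).trans (max_le ((natDegree_C_mul_le _ _).trans
            natDegree_X_le) (by simp))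
      _ ≤ k := by rw [mul_one]; exact hk
  have h2 := resultant_eq_prod_eval (P.map C) ((G.map C).comp (C (C b) * X + C X)) k h1 hs'
  rw [natDegree_map_eq_of_injective hinj, leadingCoeff_map_of_injective hinj,
    hs.roots_map_of_injective hinj, Multiset.map_map] at h2
  rw [h2, C_pow]
  congr 2
  refine Multiset.map_congr rfl fun α _ => ?_
  simp only [Function.comp_apply, eval_comp, eval_add, eval_mul, eval_C, eval_X]
  rw [eval_map]
  have : (C b * C α + X : ℂ[X]) = X + C (b * α) := by
    rw [C_mul]; ring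
  rw [this]
  rfl

theorem res (f g : MvPolynomial (Fin 2) QB) (hf : f ∈ PlaneFam) (hg : g ∈ PlaneFam) (a b : QB)
    (ha : (a : ℂ).im = 0) (hb : (b : ℂ).im = 0) (ha0 : a ≠ 0) (hb0 : b ≠ 0)
    (h1 : ∀ (t : ℝ) (z : ℂ), MvPolynomial.aeval ![(a : ℂ) * z, (t : ℂ)] f = 0 → 0 < z.im)
    (h2 : ∀ (t : ℝ) (z : ℂ), MvPolynomial.aeval ![(b : ℂ) * z, (t : ℂ)] g = 0 → z.im < 0) :
    ∃ h ∈ PlaneFam, ∃ U V : Polynomial (MvPolynomial (Fin 2) QB),
      U * MvPolynomial.aeval ![Polynomial.C (MvPolynomial.C a) * Polynomial.X,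
          Polynomial.C (MvPolynomial.X 1)] f +
        V * MvPolynomial.aeval ![Polynomial.C (MvPolynomial.C b) * Polynomial.X +
          Polynomial.C (MvPolynomial.X 0), Polynomial.C (MvPolynomial.X 1)] g =
      Polynomial.C h := by
  have ha0' : (a : ℂ) ≠ 0 := fun h => ha0 (Subtype.ext h)
  have hb0' : (b : ℂ) ≠ 0 := fun h => hb0 (Subtype.ext h)
  set m := (MvPolynomial.finSuccEquiv QB 1 f).natDegree with hm
  set k := (MvPolynomial.finSuccEquiv QB 1 g).natDegree with hk
  by_cases hmk : m = 0 ∧ k = 0
  · refine ⟨f, hf, 1, 0, ?_⟩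
    rw [one_mul, zero_mul, add_zero, aeval_eq_comp]
    obtain ⟨f0, hf0⟩ := natDegree_eq_zero.mp hmk.1
    rw [← hf0, Polynomial.map_C, C_comp]
    congr 1
    apply (MvPolynomial.finSuccEquiv QB 1).injective
    rw [← hf0]
    unfold jj
    have : (fun _ : Fin 1 => (1 : Fin 2)) = Fin.succ := by
      funext i
      fin_cases i
      rfl
    rw [this]
    exact fse_rename f0
  · set p : (MvPolynomial (Fin 2) QB)[X] :=
      MvPolynomial.aeval ![Polynomial.C (MvPolynomial.C a) * Polynomial.X,
          Polynomial.C (MvPolynomial.X 1)] f with hp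
    set q : (MvPolynomial (Fin 2) QB)[X] :=
      MvPolynomial.aeval ![Polynomial.C (MvPolynomial.C b) * Polynomial.X +
          Polynomial.C (MvPolynomial.X 0), Polynomial.C (MvPolynomial.X 1)] g with hq
    have hpm : p.natDegree ≤ m := by
      rw [hp, aeval_eq_comp]
      refine natDegree_comp_le.trans ?_
      calc _ ≤ m * 1 := by
            refine Nat.mul_le_mul natDegree_map_le ?_
            exact (natDegree_C_mul_le _ _).trans natDegree_X_le
        _ = m := mul_one m
    have hqk : q.natDegree ≤ k := by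
      rw [hq, aeval_eq_comp]
      refine natDegree_comp_le.trans ?_
      calc _ ≤ k * 1 := by
            refine Nat.mul_le_mul natDegree_map_le ?_
            exact (natDegree_add_le _ _).trans (max_le ((natDegree_C_mul_le _ _).trans
              natDegree_X_le) (by simp))
        _ = k := mul_one k
    obtain ⟨U, V, -, -, hUV⟩ := exists_mul_add_mul_eq_C_resultant p q hpm hqk (by
      by_contra hcon
      push Not at hcon
      exact hmk hcon)
    have hslice : ∀ t : ℝ, psi t (resultant p q m k) =
        C (((psi t f).comp (C (a : ℂ) * X)).leadingCoeff ^ k) *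
        (((psi t f).comp (C (a : ℂ) * X)).roots.map
          (fun α => (psi t g).comp (X + C ((b : ℂ) * α)))).prod := by
      intro t
      have hd := (natDegree_slice hf.1 t).1
      have hd' : ((psi t f).comp (C (a : ℂ) * X)).natDegree = m := by
        rw [natDegree_comp, natDegree_C_mul_X _ ha0', hd, mul_one]
      rw [← res_slice _ _ _ _ (natDegree_slice hg.1 t).1.le, hd']
      have e1 : psi t (resultant p q m k) = resultant (p.map (psi t).toRingHom)
          (q.map (psi t).toRingHom) m k := by
        rw [resultant_map_map]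
        rfl
      rw [e1]
      congr 1
      · rw [hp, map_aeval, Polynomial.map_comp]
        congr 1
        simp [psi, Polynomial.algebraMap_apply]
        rfl
      · rw [hq, map_aeval]
        congr 1
        simp [psi, Polynomial.algebraMap_apply]
        rfl
    have hfacts := fun t : ℝ => prod_facts ((psi t f).comp (C (a : ℂ) * X)).roots (psi t g)
      (natDegree_slice hg.1 t).2 (b : ℂ)
    have hP0 : ∀ t : ℝ, (psi t f).comp (C (a : ℂ) * X) ≠ 0 := by
      intro t h0
      rw [comp_C_mul_X_eq_zero_iff (isUnit_iff_ne_zero.mpr ha0').mem_nonZeroDivisors] at h0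
      exact (natDegree_slice hf.1 t).2 h0
    have hl : ∀ t : ℝ, ((psi t f).comp (C (a : ℂ) * X)).leadingCoeff ^ k ≠ 0 := fun t =>
      pow_ne_zero _ (leadingCoeff_ne_zero.mpr (hP0 t))
    refine ⟨resultant p q m k, ⟨?_, ?_⟩, U, V, ?_⟩
    · refine lc_ne (m * k) (fun t => ?_) (fun t => ?_)
      · rw [hslice t, natDegree_C_mul (hl t), (hfacts t).1, (natDegree_slice hg.1 t).1, ← hk]
        congr 1
        rw [← (IsAlgClosed.splits _).natDegree_eq_card_roots, natDegree_comp,
          natDegree_C_mul_X _ ha0', (natDegree_slice hf.1 t).1, mul_one]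
      · rw [hslice t]
        exact mul_ne_zero (C_ne_zero.mpr (hl t)) (hfacts t).2.1
    · have key : ∀ (x : Fin 1 → ℝ) (y : ℂ), evz (resultant p q m k) y x = 0 →
          ∃ α β : ℂ, 0 < α.im ∧ β.im < 0 ∧ y = b * (β - α) := by
        intro x y h0
        rw [evz_eq, hslice, eval_mul, eval_C, mul_eq_zero] at h0
        rcases h0 with h0 | h0
        · exact absurd h0 (hl _)
        · obtain ⟨α, hα, h3⟩ := (hfacts (x 0)).2.2 y h0
          have h4 := (mem_roots (hP0 (x 0))).mp hα
          rw [IsRoot.def, eval_comp, eval_mul, eval_C, eval_X, psi_eval] at h4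
          refine ⟨α, (y + b * α) / b, h1 _ _ h4, h2 (x 0) _ ?_, ?_⟩
          · rw [mul_div_cancel₀ _ hb0', ← psi_eval]
            exact h3
          · field_simp
            ring
      have him : ∀ z : ℂ, ((b : ℂ) * z).im = (b : ℂ).re * z.im := by
        intro z
        rw [Complex.mul_im, hb, zero_mul, add_zero]
      have hbr : (b : ℂ).re ≠ 0 := by
        intro h
        exact hb0' (Complex.ext h hb)
      rcases lt_or_gt_of_ne hbr with hneg | hpos
      · left
        intro x y h0
        obtain ⟨α, β, hα, hβ, rfl⟩ := key x y h0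
        rw [him, Complex.sub_im]
        exact mul_pos_of_neg_of_neg hneg (by linarith)
      · right
        intro x y h0
        obtain ⟨α, β, hα, hβ, rfl⟩ := key x y h0
        rw [him, Complex.sub_im]
        exact mul_neg_of_pos_of_neg hpos (by linarith)
    · rw [← hUV]
      ring

end HPR64
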